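import Pool.Agent.Q266.SPC.Main2

/-!
# Order embeddings between intervals of Boolean strong partial clones

A full (positive) answer to Q1 of MP_2f3cff_al.
-/

set_option autoImplicit false

namespace Pool.Agent.Results.MP_2f3cff_al.OrderEmbeddings

/-- Partial functions on `{0,1}` of arity `n + 1`; the value `none` means undefined. -/
abbrev PartialFn (n : ℕ) : Type := (Fin (n + 1) → Bool) → Option Bool

/-- Sets of partial functions, sorted by arity. -/
abbrev Family : Type := (n : ℕ) → Set (PartialFn n)

/-- `f` is total. -/
def IsTotal {n : ℕ} (f : PartialFn n) : Prop := ∀ x, ∃ b, f x = some b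

/-- `h` is the composition `f(g_0, ..., g_n)`: it is defined at `x` exactly when every `g_i` is
defined at `x` and `f` is defined at the tuple of the values, and then takes the value of `f`. -/
def IsComposition {n m : ℕ} (h : PartialFn m) (f : PartialFn n)
    (g : Fin (n + 1) → PartialFn m) : Prop :=
  ∀ x b, h x = some b ↔ ∃ y : Fin (n + 1) → Bool, (∀ i, g i x = some (y i)) ∧ f y = some b

/-- Partial clones: sets of partial functions that contain all total projections and are closed
under composition. -/
structure IsPartialClone (P : Family) : Prop where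
  proj : ∀ (n : ℕ) (i : Fin (n + 1)), (fun x : Fin (n + 1) → Bool => some (x i)) ∈ P n
  comp : ∀ (n m : ℕ) (f : PartialFn n) (g : Fin (n + 1) → PartialFn m) (h : PartialFn m),
    f ∈ P n → (∀ i, g i ∈ P m) → IsComposition h f g → h ∈ P m

/-- `h` is a restriction of `f`. -/
def IsRestriction {n : ℕ} (h f : PartialFn n) : Prop := ∀ x b, h x = some b → f x = some b

/-- Strong sets of partial functions: closed under restricting functions to subsets of their
domains. -/
def IsStrong (P : Family) : Prop :=
  ∀ (n : ℕ) (f h : PartialFn n), f ∈ P n → IsRestriction h f → h ∈ P n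

/-- Boolean clones: partial clones consisting of total functions. -/
def IsBooleanClone (C : Family) : Prop := IsPartialClone C ∧ ∀ n, ∀ f ∈ C n, IsTotal f

/-- The set of the total functions in `P`. -/
def totalPart (P : Family) : Family := fun n => {f | f ∈ P n ∧ IsTotal f}

/-- The interval `I_Str(C)`: the strong partial clones whose total part is exactly `C`. -/
def intervalStr (C : Family) : Set Family :=
  {P | IsPartialClone P ∧ IsStrong P ∧ totalPart P = C}

/-- The set of total functions attached to a Boolean clone. -/
def tot (C : Family) : Pool.Agent.Q266.SPC.TFam := fun n => {t | (fun x => some (t x)) ∈ C n}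

theorem tot_clone {C : Family} (hC : IsBooleanClone C) :
    Pool.Agent.Q266.SPC.IsClone (tot C) := by
  refine ⟨fun n i => hC.1.proj n i, ?_⟩
  intro n m f g hf hg
  refine hC.1.comp n m (fun x => some (f x)) (fun i x => some (g i x)) _ hf hg ?_
  intro x b
  constructor
  · intro h
    exact ⟨fun i => g i x, fun i => rfl, h⟩
  · rintro ⟨y, hy, h⟩
    have : (fun i => g i x) = y := by
      funext i
      exact Option.some.inj (hy i)
    show some (f (fun i => g i x)) = some b
    rw [this]
    exact h

theorem interval_iff {C : Family} (hC : IsBooleanClone C) (P : Family) :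
    P ∈ intervalStr C ↔ P ∈ Pool.Agent.Q266.SPC.IStr (tot C) := by
  constructor
  · rintro ⟨h1, h2, h3⟩
    refine ⟨⟨h1.proj, h1.comp⟩, h2, ?_⟩
    intro n f
    show (fun x => some (f x)) ∈ C n ↔ _
    rw [← h3]
    constructor
    · intro h
      exact h.1
    · intro h
      exact ⟨h, fun x => ⟨f x, rfl⟩⟩
  · rintro ⟨h1, h2, h3⟩
    refine ⟨⟨h1.proj, h1.comp⟩, h2, ?_⟩
    funext n
    ext f
    constructor
    · rintro ⟨hf, ht⟩
      choose t ht' using ht
      have e : f = fun x => some (t x) := funext ht'
      rw [e] at hf ⊢
      exact (h3 n t).2 hf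
    · intro hf
      have ht := hC.2 n f hf
      refine ⟨?_, ht⟩
      choose t ht' using ht
      have e : f = fun x => some (t x) := funext ht'
      rw [e] at hf ⊢
      exact (h3 n t).1 hf

/-- For every pair `D ⊆ C` of Boolean clones there is an order embedding of the interval
`I_Str(C)` of the strong partial clones with total part `C` into the interval `I_Str(D)`, both
ordered by inclusion. -/
theorem result (C D : Family) (hC : IsBooleanClone C) (hD : IsBooleanClone D)
    (h : ∀ n, D n ⊆ C n) :
    ∃ φ : intervalStr C → intervalStr D, ∀ X Y : intervalStr C,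
      (∀ n, (φ X).1 n ⊆ (φ Y).1 n) ↔ (∀ n, X.1 n ⊆ Y.1 n) := by
  obtain ⟨e⟩ := Pool.Agent.Q266.SPC.main (tot_clone hC) (tot_clone hD)
    (fun n t ht => h n ht)
  refine ⟨fun X => ⟨(e ⟨X.1, (interval_iff hC _).1 X.2⟩).1,
    (interval_iff hD _).2 (e ⟨X.1, (interval_iff hC _).1 X.2⟩).2⟩, ?_⟩
  intro X Y
  exact e.le_iff_le (a := ⟨X.1, (interval_iff hC _).1 X.2⟩)
    (b := ⟨Y.1, (interval_iff hC _).1 Y.2⟩)

end Pool.Agent.Results.MP_2f3cff_al.OrderEmbeddings
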